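import Mathlib

/-!
A Hall type group `G = Q[I] ⋊ (Z[I] ⋊ I)` with `I = Z × Z/2`: basic definitions.
-/

set_option autoImplicit false

namespace Pool.Agent.H830Z.CoHopf

abbrev I : Type := ℤ × ZMod 2

def rel (i j : I) : Prop := i.2 = j.2 ∧ ∃ m n : ℕ, 2 ^ m * i.1 = 2 ^ n * j.1

theorem rel_refl (i : I) : rel i i := ⟨rfl, 0, 0, rfl⟩

theorem rel_symm {i j : I} (h : rel i j) : rel j i := by
  obtain ⟨h1, m, n, h2⟩ := h
  exact ⟨h1.symm, n, m, h2.symm⟩

theorem rel_trans {i j k : I} (h : rel i j) (h' : rel j k) : rel i k := by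
  obtain ⟨h1, m, n, h2⟩ := h
  obtain ⟨h3, m', n', h4⟩ := h'
  refine ⟨h1.trans h3, m + m', n + n', ?_⟩
  calc (2 : ℤ) ^ (m + m') * i.1 = 2 ^ m' * (2 ^ m * i.1) := by ring
    _ = 2 ^ n * (2 ^ m' * j.1) := by rw [h2]; ring
    _ = 2 ^ (n + n') * k.1 := by rw [h4]; ring

def relS : Setoid I := ⟨rel, rel_refl, rel_symm, rel_trans⟩

theorem pow_cases {a b : ℤ} {m n : ℕ} (h : 2 ^ m * a = 2 ^ n * b) :
    ∃ r : ℕ, a = 2 ^ r * b ∨ b = 2 ^ r * a := by
  rcases le_total m n with hmn | hmn
  · obtain ⟨r, rfl⟩ := Nat.exists_eq_add_of_le hmn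
    refine ⟨r, Or.inl ?_⟩
    have h2 : (2 : ℤ) ^ m ≠ 0 := by positivity
    apply mul_left_cancel₀ h2
    rw [h]; ring
  · obtain ⟨r, rfl⟩ := Nat.exists_eq_add_of_le hmn
    refine ⟨r, Or.inr ?_⟩
    have h2 : (2 : ℤ) ^ n ≠ 0 := by positivity
    apply mul_left_cancel₀ h2
    rw [← h]; ring

theorem eq_of_odd {a b : ℤ} {m n : ℕ} (h : 2 ^ m * a = 2 ^ n * b) (ha : Odd a) (hb : Odd b) :
    a = b := by
  obtain ⟨r, hr | hr⟩ := pow_cases h
  · rcases r with _ | r
    · simpa using hr
    · exfalso
      rw [hr, pow_succ] at ha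
      have : Even (2 ^ r * 2 * b) := ⟨2 ^ r * b, by ring⟩
      exact (Int.not_even_iff_odd.2 ha) this
  · rcases r with _ | r
    · simpa using hr.symm
    · exfalso
      rw [hr, pow_succ] at hb
      have : Even (2 ^ r * 2 * a) := ⟨2 ^ r * a, by ring⟩
      exact (Int.not_even_iff_odd.2 hb) this

instance : Infinite (Quotient relS) := by
  refine Infinite.of_injective (fun n : ℕ => Quotient.mk relS ((2 * n + 1 : ℤ), 0)) ?_
  intro a b hab
  obtain ⟨-, m, n, h⟩ : rel ((2 * a + 1 : ℤ), 0) ((2 * b + 1 : ℤ), 0) := Quotient.exact hab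
  have := eq_of_odd h ⟨a, rfl⟩ ⟨b, rfl⟩
  simp only at this
  omega

theorem exists_lam : ∃ lam : I → ℕ, (∀ i, (lam i).Prime) ∧ (∀ p : ℕ, p.Prime → ∃ i, lam i = p) ∧
    ∀ i j, lam i = lam j ↔ rel i j := by
  obtain ⟨e⟩ : Nonempty (Quotient relS ≃ Nat.Primes) := nonempty_equiv_of_countable
  refine ⟨fun i => (e (Quotient.mk relS i)).1, fun i => (e _).2, ?_, ?_⟩
  · intro p hp
    obtain ⟨i, hi⟩ := Quotient.exists_rep (e.symm ⟨p, hp⟩)
    refine ⟨i, ?_⟩
    simp only [hi, Equiv.apply_symm_apply]
  · intro i j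
    constructor
    · intro h
      have h1 : e (Quotient.mk relS i) = e (Quotient.mk relS j) := Subtype.ext h
      exact Quotient.exact (e.injective h1)
    · intro h
      have : Quotient.mk relS i = Quotient.mk relS j := Quotient.sound h
      simp only [this]

noncomputable def lam : I → ℕ := exists_lam.choose

theorem lam_prime (i : I) : (lam i).Prime := exists_lam.choose_spec.1 i
theorem lam_surj {p : ℕ} (hp : p.Prime) : ∃ i, lam i = p := exists_lam.choose_spec.2.1 p hp
theorem lam_eq_iff (i j : I) : lam i = lam j ↔ rel i j := exists_lam.choose_spec.2.2 i j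

theorem lam_ne_zero (i : I) : (lam i : ℚ) ≠ 0 := by
  exact_mod_cast (lam_prime i).ne_zero

/-- the weight by which `b` acts on the basis vector `i` -/
noncomputable def chi (b : I →₀ ℤ) (i : I) : ℚ := b.prod fun j n => (lam (i - j) : ℚ) ^ n

theorem chi_ne_zero (b : I →₀ ℤ) (i : I) : chi b i ≠ 0 := by
  unfold chi Finsupp.prod
  exact Finset.prod_ne_zero_iff.2 fun j _ => zpow_ne_zero _ (lam_ne_zero _)

@[simp] theorem chi_zero (i : I) : chi 0 i = 1 := by simp [chi]

theorem chi_add (b c : I →₀ ℤ) (i : I) : chi (b + c) i = chi b i * chi c i := by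
  unfold chi
  rw [Finsupp.prod_add_index']
  · intro a; simp
  · intro a m n; rw [zpow_add₀ (lam_ne_zero _)]

theorem chi_single (j : I) (n : ℤ) (i : I) :
    chi (Finsupp.single j n) i = (lam (i - j) : ℚ) ^ n := by
  unfold chi
  rw [Finsupp.prod_single_index]; simp

/-- translation of finitely supported functions -/
noncomputable def shift {M : Type} [AddCommGroup M] (q : I) (v : I →₀ M) : I →₀ M :=
  Finsupp.equivMapDomain (Equiv.addRight q) v

@[simp] theorem shift_apply {M : Type} [AddCommGroup M] (q : I) (v : I →₀ M) (i : I) :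
    shift q v i = v (i - q) := by
  simp [shift, Finsupp.equivMapDomain_apply, sub_eq_add_neg]

theorem shift_add {M : Type} [AddCommGroup M] (q : I) (v w : I →₀ M) :
    shift q (v + w) = shift q v + shift q w := by
  ext i; simp

@[simp] theorem shift_zero' {M : Type} [AddCommGroup M] (q : I) : shift q (0 : I →₀ M) = 0 := by
  ext i; simp

@[simp] theorem shift_zero {M : Type} [AddCommGroup M] (v : I →₀ M) : shift 0 v = v := by
  ext i; simp

theorem shift_shift {M : Type} [AddCommGroup M] (q r : I) (v : I →₀ M) :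
    shift q (shift r v) = shift (q + r) v := by
  ext i; simp [sub_sub]

theorem shift_single {M : Type} [AddCommGroup M] (q j : I) (x : M) :
    shift q (Finsupp.single j x) = Finsupp.single (j + q) x := by
  classical
  ext i
  rw [shift_apply, Finsupp.single_apply, Finsupp.single_apply]
  have : j = i - q ↔ j + q = i := eq_sub_iff_add_eq
  simp only [this]

theorem chi_shift (q : I) (b : I →₀ ℤ) (i : I) : chi (shift q b) i = chi b (i - q) := by
  induction b using Finsupp.induction_linear with
  | zero => simp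
  | add f g hf hg => rw [shift_add, chi_add, chi_add, hf, hg]
  | single j n =>
    rw [shift_single, chi_single, chi_single]
    congr 3
    abel

/-- the monomial action on `Q[I]` -/
noncomputable def act (b : I →₀ ℤ) (q : I) (v : I →₀ ℚ) : I →₀ ℚ :=
  Finsupp.onFinset (shift q v).support (fun i => chi b i * v (i - q)) (by
    intro i hi
    rw [Finsupp.mem_support_iff, shift_apply]
    intro h
    exact hi (by rw [h, mul_zero]))

@[simp] theorem act_apply (b : I →₀ ℤ) (q : I) (v : I →₀ ℚ) (i : I) :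
    act b q v i = chi b i * v (i - q) := rfl

theorem act_add (b : I →₀ ℤ) (q : I) (v w : I →₀ ℚ) :
    act b q (v + w) = act b q v + act b q w := by
  ext i; simp [mul_add]

@[simp] theorem act_zero_zero (v : I →₀ ℚ) : act 0 0 v = v := by
  ext i; simp

@[simp] theorem act_zero (b : I →₀ ℤ) (q : I) : act b q 0 = 0 := by
  ext i; simp

theorem act_act (b c : I →₀ ℤ) (q r : I) (v : I →₀ ℚ) :
    act b q (act c r v) = act (b + shift q c) (q + r) v := by
  ext i
  simp only [act_apply, chi_add, chi_shift, sub_sub, mul_assoc]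

theorem act_single (b : I →₀ ℤ) (q j : I) (x : ℚ) :
    act b q (Finsupp.single j x) = Finsupp.single (j + q) (chi b (j + q) * x) := by
  classical
  ext i
  rw [act_apply, Finsupp.single_apply, Finsupp.single_apply]
  have : j = i - q ↔ j + q = i := eq_sub_iff_add_eq
  simp only [this]
  split_ifs with h
  · rw [h]
  · rw [mul_zero]

@[ext] structure G where
  v : I →₀ ℚ
  b : I →₀ ℤ
  q : I

noncomputable instance : Mul G :=
  ⟨fun g h => ⟨g.v + act g.b g.q h.v, g.b + shift g.q h.b, g.q + h.q⟩⟩

instance : One G := ⟨⟨0, 0, 0⟩⟩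

noncomputable instance : Inv G :=
  ⟨fun g => ⟨act (-shift (-g.q) g.b) (-g.q) (-g.v), -shift (-g.q) g.b, -g.q⟩⟩

@[simp] theorem mul_v (g h : G) : (g * h).v = g.v + act g.b g.q h.v := rfl
@[simp] theorem mul_b (g h : G) : (g * h).b = g.b + shift g.q h.b := rfl
@[simp] theorem mul_q (g h : G) : (g * h).q = g.q + h.q := rfl
@[simp] theorem one_v : (1 : G).v = 0 := rfl
@[simp] theorem one_b : (1 : G).b = 0 := rfl
@[simp] theorem one_q : (1 : G).q = 0 := rfl
theorem inv_v (g : G) : (g⁻¹).v = act (-shift (-g.q) g.b) (-g.q) (-g.v) := rfl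
theorem inv_b (g : G) : (g⁻¹).b = -shift (-g.q) g.b := rfl
@[simp] theorem inv_q (g : G) : (g⁻¹).q = -g.q := rfl

noncomputable instance : Group G := Group.ofLeftAxioms
  (by
    intro a b c
    apply G.ext
    · simp only [mul_v, mul_b, mul_q, act_add, act_act, add_assoc]
    · simp only [mul_b, mul_q, shift_add, shift_shift, add_assoc]
    · simp only [mul_q, add_assoc])
  (by
    intro a
    apply G.ext <;> simp)
  (by
    intro a
    apply G.ext
    · rw [mul_v, inv_v, inv_b, inv_q, ← act_add]; simp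
    · rw [mul_b, inv_b, inv_q]; simp
    · simp)

/-- the subgroup of index two -/
def T : Subgroup G where
  carrier := {g | g.q.2 = (g.q.1 : ZMod 2)}
  mul_mem' := by
    intro a b ha hb
    simp only [Set.mem_ofPred_eq, mul_q, Prod.snd_add, Prod.fst_add, Int.cast_add] at *
    rw [ha, hb]
  one_mem' := by simp
  inv_mem' := by
    intro a ha
    simp only [Set.mem_ofPred_eq, inv_q, Prod.snd_neg, Prod.fst_neg, Int.cast_neg] at *
    rw [ha]

theorem mem_T (g : G) : g ∈ T ↔ g.q.2 = (g.q.1 : ZMod 2) := Iff.rfl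

/-- the doubling map on the index set -/
def dbl : I ↪ I := ⟨fun i => (2 * i.1, i.2), by
  intro i j h
  simp only [Prod.mk.injEq] at h
  exact Prod.ext (by omega) h.2⟩

theorem dbl_add (i j : I) : dbl (i + j) = dbl i + dbl j := by
  apply Prod.ext
  · show 2 * (i.1 + j.1) = 2 * i.1 + 2 * j.1
    ring
  · rfl

theorem dbl_sub (i j : I) : dbl (i - j) = dbl i - dbl j := by
  apply Prod.ext
  · show 2 * (i.1 - j.1) = 2 * i.1 - 2 * j.1
    ring
  · rfl

theorem lam_dbl (i : I) : lam (dbl i) = lam i := by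
  rw [lam_eq_iff]
  refine ⟨rfl, 0, 1, ?_⟩
  show 2 ^ 0 * (2 * i.1) = 2 ^ 1 * i.1
  ring

theorem chi_emb (b : I →₀ ℤ) (i : I) : chi (Finsupp.embDomain dbl b) (dbl i) = chi b i := by
  induction b using Finsupp.induction_linear with
  | zero => simp
  | add f g hf hg => rw [Finsupp.embDomain_add, chi_add, chi_add, hf, hg]
  | single j n => rw [Finsupp.embDomain_single, chi_single, chi_single, ← dbl_sub, lam_dbl]

theorem emb_shift (q : I) (b : I →₀ ℤ) :
    Finsupp.embDomain dbl (shift q b) = shift (dbl q) (Finsupp.embDomain dbl b) := by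
  induction b using Finsupp.induction_linear with
  | zero => simp
  | add f g hf hg => rw [shift_add, Finsupp.embDomain_add, Finsupp.embDomain_add, shift_add, hf, hg]
  | single j n =>
    rw [shift_single, Finsupp.embDomain_single, Finsupp.embDomain_single, shift_single, dbl_add]

theorem emb_act (b : I →₀ ℤ) (q : I) (v : I →₀ ℚ) :
    Finsupp.embDomain dbl (act b q v)
      = act (Finsupp.embDomain dbl b) (dbl q) (Finsupp.embDomain dbl v) := by
  induction v using Finsupp.induction_linear with
  | zero => simp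
  | add f g hf hg => rw [act_add, Finsupp.embDomain_add, Finsupp.embDomain_add, act_add, hf, hg]
  | single j n =>
    rw [act_single, Finsupp.embDomain_single, Finsupp.embDomain_single, act_single, ← dbl_add,
      chi_emb]

/-- an injective endomorphism of `G` which is not onto -/
noncomputable def phi : G →ₙ* G where
  toFun g := ⟨Finsupp.embDomain dbl g.v, Finsupp.embDomain dbl g.b, dbl g.q⟩
  map_mul' g h := by
    apply G.ext
    · simp only [mul_v, Finsupp.embDomain_add, emb_act]
    · simp only [mul_b, Finsupp.embDomain_add, emb_shift]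
    · simp only [mul_q, dbl_add]

theorem phi_injective : Function.Injective phi := by
  intro g h hgh
  apply G.ext
  · exact Finsupp.embDomain_injective dbl (congrArg G.v hgh)
  · exact Finsupp.embDomain_injective dbl (congrArg G.b hgh)
  · exact dbl.injective (congrArg G.q hgh)

theorem phi_not_surjective : ¬ Function.Surjective phi := by
  intro h
  obtain ⟨g, hg⟩ := h ⟨0, 0, (1, 0)⟩
  have h1 : (dbl g.q).1 = 1 := congrArg (fun x : G => x.q.1) hg
  have h2 : 2 * g.q.1 = 1 := h1
  omega

end Pool.Agent.H830Z.CoHopf
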