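import Pool.Agent.H830Z.CoHopfA

/-!
The subgroup `T` is co-hopfian.
-/

set_option autoImplicit false

namespace Pool.Agent.H830Z.CoHopf

def vG (v : I →₀ ℚ) : G := ⟨v, 0, 0⟩
def bG (b : I →₀ ℤ) : G := ⟨0, b, 0⟩
def dg (n : ℤ) : I := (n, (n : ZMod 2))
def tG (n : ℤ) : G := ⟨0, 0, dg n⟩

theorem dg_add (m n : ℤ) : dg (m + n) = dg m + dg n := by
  apply Prod.ext
  · rfl
  · show ((m + n : ℤ) : ZMod 2) = m + n
    push_cast; rfl

@[simp] theorem dg_zero : dg 0 = 0 := by
  apply Prod.ext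
  · rfl
  · show ((0 : ℤ) : ZMod 2) = 0
    simp

theorem eq_dg {g : G} (h : g ∈ T) : g.q = dg g.q.1 := Prod.ext rfl h

theorem vG_mem (v : I →₀ ℚ) : vG v ∈ T := by simp [mem_T, vG]
theorem bG_mem (b : I →₀ ℤ) : bG b ∈ T := by simp [mem_T, bG]
theorem tG_mem (n : ℤ) : tG n ∈ T := rfl

theorem vG_add (v w : I →₀ ℚ) : vG (v + w) = vG v * vG w := by
  apply G.ext <;> simp [vG]

theorem bG_add (b c : I →₀ ℤ) : bG (b + c) = bG b * bG c := by
  apply G.ext <;> simp [bG]

theorem tG_add (m n : ℤ) : tG (m + n) = tG m * tG n := by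
  apply G.ext <;> simp [tG, dg_add]

theorem vG_zero : vG 0 = 1 := rfl
theorem bG_zero : bG 0 = 1 := rfl
theorem tG_zero : tG 0 = 1 := by apply G.ext <;> simp [tG]

theorem vG_nsmul (n : ℕ) (v : I →₀ ℚ) : vG (n • v) = vG v ^ n := by
  induction n with
  | zero => simp [vG_zero]
  | succ n ih => rw [succ_nsmul, vG_add, ih, pow_succ]

theorem mul_vG (g : G) (v : I →₀ ℚ) : g * vG v = vG (act g.b g.q v) * g := by
  apply G.ext <;> simp [vG, add_comm]

theorem tG_mul_bG (n : ℤ) (b : I →₀ ℤ) : tG n * bG b = bG (shift (dg n) b) * tG n := by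
  apply G.ext <;> simp [tG, bG]

theorem pow_q (g : G) (n : ℕ) : (g ^ n).q = n • g.q := by
  induction n with
  | zero => simp
  | succ n ih => rw [pow_succ, mul_q, ih, succ_nsmul]

theorem pow_b (g : G) (hg : g.q = 0) (n : ℕ) : (g ^ n).b = n • g.b := by
  induction n with
  | zero => simp
  | succ n ih => rw [pow_succ, mul_b, ih, pow_q, hg, succ_nsmul]; simp

theorem int_eq_zero_of_dvd {x : ℤ} (h : ∀ n : ℕ, 0 < n → (n : ℤ) ∣ x) : x = 0 := by
  have h1 := h (x.natAbs + 1) (Nat.succ_pos _)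
  exact Int.eq_zero_of_dvd_of_natAbs_lt_natAbs h1 (by omega)

theorem val_chi (r : ℕ) [Fact r.Prime] (c : I →₀ ℤ) (x : I) :
    padicValRat r (chi c x) = ∑ l ∈ c.support, if lam (x - l) = r then c l else 0 := by
  classical
  unfold chi Finsupp.prod
  generalize c.support = s
  induction s using Finset.induction_on with
  | empty => simp
  | insert a s ha ih =>
    rw [Finset.prod_insert ha, Finset.sum_insert ha, padicValRat.mul
      (zpow_ne_zero _ (lam_ne_zero _))
      (Finset.prod_ne_zero_iff.2 fun j _ => zpow_ne_zero _ (lam_ne_zero _)), ih]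
    congr 1
    rw [padicValRat.zpow, padicValRat.of_nat]
    have : Fact (lam (x - a)).Prime := ⟨lam_prime _⟩
    split_ifs with h
    · rw [h, padicValNat.self (Fact.out : r.Prime).one_lt]; simp
    · rw [padicValNat_primes (fun h' => h h'.symm)]; simp

/-- if the weight of `c` at `x` is a prime and the primes involved are distinct, then `c` is a
basis vector -/
theorem single_of_chi (c : I →₀ ℤ) (x : I) (p : ℕ) (hp : p.Prime) (h : chi c x = p)
    (hinj : ∀ l ∈ c.support, ∀ l' ∈ c.support, lam (x - l) = lam (x - l') → l = l') :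
    ∃ l, c = Finsupp.single l 1 := by
  classical
  have key : ∀ l ∈ c.support, lam (x - l) = p ∧ c l = 1 := by
    intro l hl
    have : Fact (lam (x - l)).Prime := ⟨lam_prime _⟩
    have : Fact p.Prime := ⟨hp⟩
    have h1 := val_chi (lam (x - l)) c x
    rw [Finset.sum_eq_single l, if_pos rfl, h, padicValRat.of_nat] at h1
    · have h2 : c l ≠ 0 := Finsupp.mem_support_iff.1 hl
      by_cases h3 : lam (x - l) = p
      · refine ⟨h3, ?_⟩
        rw [h3, padicValNat.self hp.one_lt] at h1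
        simpa using h1.symm
      · rw [padicValNat_primes h3] at h1
        exact absurd (by simpa using h1.symm) h2
    · intro l' hl' hne
      rw [if_neg]
      intro h4
      exact hne (hinj l' hl' l hl h4)
    · intro h4; exact absurd hl h4
  rcases Finset.eq_empty_or_nonempty c.support with h0 | ⟨l, hl⟩
  · exfalso
    rw [Finsupp.support_eq_empty] at h0
    rw [h0, chi_zero] at h
    have : p = 1 := by exact_mod_cast h.symm
    exact hp.one_lt.ne' this
  · refine ⟨l, ?_⟩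
    rw [Finsupp.eq_single_iff]
    refine ⟨?_, (key l hl).2⟩
    intro l' hl'
    rw [Finset.mem_singleton]
    exact hinj l' hl' l hl ((key l' hl').1.trans (key l hl).1.symm)

theorem exists_far (s : Finset I) (k : I) (u : ℤ) (hu : u ≠ 0) :
    ∃ n : ℤ, ∀ l ∈ s, ∀ l' ∈ s,
      lam (k - dg (n * u) - l) = lam (k - dg (n * u) - l') → l = l' := by
  obtain ⟨M, hM⟩ : ∃ M : ℤ, 0 ≤ M ∧ ∀ l ∈ s, |k.1 - l.1| ≤ M := by
    refine ⟨∑ l ∈ s, |k.1 - l.1|, Finset.sum_nonneg fun _ _ => abs_nonneg _, ?_⟩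
    intro l hl
    exact Finset.single_le_sum (f := fun l : I => |k.1 - l.1|) (fun _ _ => abs_nonneg _) hl
  refine ⟨(3 * M + 1) * u, ?_⟩
  intro l hl l' hl' h
  rw [lam_eq_iff] at h
  obtain ⟨h1, m, n, h2⟩ := h
  have hu2 : 1 ≤ u * u := by
    have := mul_self_pos.2 hu
    omega
  have hN : 3 * M + 1 ≤ (3 * M + 1) * u * u := by nlinarith [hM.1]
  set N := (3 * M + 1) * u * u with hNdef
  have e1 : (k - dg N - l).1 = k.1 - l.1 - N := by simp [dg]; ring
  have e2 : (k - dg N - l').1 = k.1 - l'.1 - N := by simp [dg]; ring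
  rw [e1, e2] at h2
  have b1 := abs_le.1 (hM.2 l hl)
  have b2 := abs_le.1 (hM.2 l' hl')
  have hfst : l.1 = l'.1 := by
    obtain ⟨r, hr | hr⟩ := pow_cases h2
    · rcases r with _ | r
      · simp at hr; omega
      · exfalso
        have h3 : (1 : ℤ) ≤ 2 ^ r := one_le_pow₀ (by norm_num)
        rw [pow_succ] at hr
        nlinarith
    · rcases r with _ | r
      · simp at hr; omega
      · exfalso
        have h3 : (1 : ℤ) ≤ 2 ^ r := one_le_pow₀ (by norm_num)
        rw [pow_succ] at hr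
        nlinarith
  apply Prod.ext hfst
  simpa using h1

theorem eq_of_rel_zero {i j : I} (h : rel i j) (hj : j.1 = 0) : i = j := by
  obtain ⟨h1, m, n, h2⟩ := h
  apply Prod.ext _ h1
  rw [hj, mul_zero] at h2
  have h3 : (2 : ℤ) ^ m ≠ 0 := by positivity
  rw [hj]
  exact (mul_eq_zero.1 h2).resolve_left h3

theorem eigen_q {b : I →₀ ℤ} {q : I} {w : I →₀ ℚ} {c : ℚ} (hw : w ≠ 0) (hc : c ≠ 0)
    (h : act b q w = c • w) : q.1 = 0 := by
  have key : ∀ i, w i ≠ 0 ↔ w (i - q) ≠ 0 := by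
    intro i
    have h1 : chi b i * w (i - q) = c * w i := by
      have := congrArg (fun f : I →₀ ℚ => f i) h
      simpa using this
    constructor
    · intro h2 h3
      rw [h3, mul_zero] at h1
      exact (mul_ne_zero hc h2) h1.symm
    · intro h2 h3
      rw [h3, mul_zero] at h1
      exact (mul_ne_zero (chi_ne_zero _ _) h2) h1
  have hne : w.support.Nonempty := Finsupp.support_nonempty_iff.2 hw
  obtain ⟨i, hi, hmin⟩ := Finset.exists_min_image w.support (fun i => i.1) hne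
  obtain ⟨j, hj, hmax⟩ := Finset.exists_max_image w.support (fun i => i.1) hne
  have h1 := hmin (i - q) (Finsupp.mem_support_iff.2 ((key i).1 (Finsupp.mem_support_iff.1 hi)))
  have h2 := hmax (j - q) (Finsupp.mem_support_iff.2 ((key j).1 (Finsupp.mem_support_iff.1 hj)))
  simp only [Prod.fst_sub] at h1 h2
  omega

theorem decomp (i l : I) : ∃ (o : I) (n : ℤ), o.1 = 0 ∧ i = l + o + dg n := by
  refine ⟨(0, i.2 - l.2 - ((i.1 - l.1 : ℤ) : ZMod 2)), i.1 - l.1, rfl, ?_⟩
  apply Prod.ext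
  · simp [dg]
  · simp only [dg, Prod.snd_add]
    ring

/-- `T` is co-hopfian. -/
theorem cohopf (ψ : G → G) (hmem : ∀ g ∈ T, ψ g ∈ T)
    (hmul : ∀ g ∈ T, ∀ h ∈ T, ψ (g * h) = ψ g * ψ h) (hinj : Set.InjOn ψ T) :
    ∀ g ∈ T, ∃ h ∈ T, ψ h = g := by
  classical
  have hone : ψ 1 = 1 := by
    have := hmul 1 T.one_mem 1 T.one_mem
    rw [mul_one] at this
    exact left_eq_mul.1 this
  have hpow : ∀ g ∈ T, ∀ n : ℕ, ψ (g ^ n) = ψ g ^ n := by
    intro g hg n
    induction n with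
    | zero => simpa using hone
    | succ n ih => rw [pow_succ, hmul _ (T.pow_mem hg n) _ hg, ih, pow_succ]
  have hroot : ∀ (v : I →₀ ℚ) (n : ℕ), 0 < n →
      ψ (vG v) = ψ (vG (((n : ℚ)⁻¹) • v)) ^ n := by
    intro v n hn
    rw [← hpow _ (vG_mem _), ← vG_nsmul]
    congr 2
    have : (n : ℚ) ≠ 0 := by exact_mod_cast hn.ne'
    rw [← Nat.cast_smul_eq_nsmul ℚ, smul_smul, mul_inv_cancel₀ this, one_smul]
  have hvq : ∀ v, (ψ (vG v)).q = 0 := by
    intro v
    have h1 : (ψ (vG v)).q.1 = 0 := by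
      apply int_eq_zero_of_dvd
      intro n hn
      rw [hroot v n hn, pow_q]
      exact ⟨_, by rw [Prod.smul_fst, nsmul_eq_mul]⟩
    rw [eq_dg (hmem _ (vG_mem v)), h1, dg_zero]
  have hvb : ∀ v, (ψ (vG v)).b = 0 := by
    intro v
    ext j
    apply int_eq_zero_of_dvd
    intro n hn
    rw [hroot v n hn, pow_b _ (hvq _)]
    exact ⟨_, by rw [Finsupp.smul_apply, nsmul_eq_mul]⟩
  let L0 : (I →₀ ℚ) →+ (I →₀ ℚ) := AddMonoidHom.mk' (fun v => (ψ (vG v)).v) (by
    intro v w
    rw [vG_add, hmul _ (vG_mem _) _ (vG_mem _), mul_v, hvb, hvq, act_zero_zero])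
  let L : (I →₀ ℚ) →ₗ[ℚ] (I →₀ ℚ) := L0.toRatLinearMap
  have hL : ∀ v, ψ (vG v) = vG (L v) := by
    intro v
    apply G.ext
    · rfl
    · exact hvb v
    · exact hvq v
  have hLne : ∀ v, v ≠ 0 → L v ≠ 0 := by
    intro v hv h0
    have h1 : ψ (vG v) = ψ 1 := by rw [hL, h0, hone]; rfl
    have h2 := hinj (vG_mem v) T.one_mem h1
    exact hv (congrArg G.v h2)
  have hconj : ∀ g ∈ T, ∀ v, act (ψ g).b (ψ g).q (L v) = L (act g.b g.q v) := by
    intro g hg v
    have h1 := congrArg ψ (mul_vG g v)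
    rw [hmul _ hg _ (vG_mem _), hmul _ (vG_mem _) _ hg, hL, hL, mul_vG] at h1
    have h2 := mul_right_cancel h1
    exact congrArg G.v h2
  have hw : ∀ o : I, L (Finsupp.single o 1) ≠ 0 := fun o =>
    hLne _ (Finsupp.single_ne_zero.2 one_ne_zero)
  have heig : ∀ (b : I →₀ ℤ) (o : I), act (ψ (bG b)).b (ψ (bG b)).q (L (Finsupp.single o 1))
      = chi b o • L (Finsupp.single o 1) := by
    intro b o
    rw [hconj _ (bG_mem b), ← map_smul]
    congr 1
    show act b 0 _ = _
    rw [act_single]; simp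
  have hbq : ∀ b, (ψ (bG b)).q = 0 := by
    intro b
    have h1 := eigen_q (hw 0) (chi_ne_zero b 0) (heig b 0)
    rw [eq_dg (hmem _ (bG_mem b)), h1, dg_zero]
  let β : (I →₀ ℤ) →+ (I →₀ ℤ) := AddMonoidHom.mk' (fun b => (ψ (bG b)).b) (by
    intro b c
    rw [bG_add, hmul _ (bG_mem _) _ (bG_mem _), mul_b, hbq, shift_zero])
  have hβ : ∀ b, (ψ (bG b)).b = β b := fun b => rfl
  have hchi : ∀ (b : I →₀ ℤ) (o k : I), L (Finsupp.single o 1) k ≠ 0 → chi (β b) k = chi b o := by
    intro b o k hk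
    have h1 := congrArg (fun f : I →₀ ℚ => f k) (heig b o)
    simp only [hbq, hβ, act_apply, sub_zero, Finsupp.smul_apply, smul_eq_mul] at h1
    exact mul_right_cancel₀ hk h1
  let τ : ℤ →+ ℤ := AddMonoidHom.mk' (fun n => (ψ (tG n)).q.1) (by
    intro m n
    rw [tG_add, hmul _ (tG_mem _) _ (tG_mem _), mul_q, Prod.fst_add])
  set u : ℤ := τ 1 with hu
  have htq : ∀ n, (ψ (tG n)).q = dg (n * u) := by
    intro n
    have h1 : τ n = n * u := by
      have := map_zsmul τ n 1
      simpa using this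
    rw [eq_dg (hmem _ (tG_mem n))]
    exact congrArg dg h1
  have hβshift : ∀ (n : ℤ) (b : I →₀ ℤ), β (shift (dg n) b) = shift (dg (n * u)) (β b) := by
    intro n b
    have h1 := congrArg ψ (tG_mul_bG n b)
    rw [hmul _ (tG_mem _) _ (bG_mem _), hmul _ (bG_mem _) _ (tG_mem _)] at h1
    have h2 := congrArg G.b h1
    rw [mul_b, mul_b, htq, hbq, shift_zero, hβ, hβ, add_comm] at h2
    exact (add_right_cancel h2).symm
  have hmain : ∀ (o o' k : I) (n : ℤ), L (Finsupp.single o 1) k ≠ 0 →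
      chi (β (Finsupp.single o' 1)) (k - dg (n * u)) = lam (o - o' - dg n) := by
    intro o o' k n hk
    rw [← chi_shift, ← hβshift, hchi _ o k hk, shift_single, chi_single, zpow_one, sub_sub]
  have hk0 : ∀ o : I, ∃ k, L (Finsupp.single o 1) k ≠ 0 := by
    intro o
    by_contra hc
    push Not at hc
    exact hw o (Finsupp.ext hc)
  have hu0 : u ≠ 0 := by
    intro h0
    obtain ⟨k, hk⟩ := hk0 0
    have h1 := hmain 0 0 k 0 hk
    have h2 := hmain 0 0 k 1 hk
    rw [h0, mul_zero] at h1 h2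
    have h3 : lam (0 - 0 - dg 0) = lam (0 - 0 - dg 1) := by exact_mod_cast h1.symm.trans h2
    have h4 := ((lam_eq_iff _ _).1 h3).1
    simp [dg] at h4
  have hsingle : ∀ o' : I, ∃ l, β (Finsupp.single o' 1) = Finsupp.single l 1 := by
    intro o'
    obtain ⟨k, hk⟩ := hk0 0
    obtain ⟨n, hn⟩ := exists_far (β (Finsupp.single o' 1)).support k u hu0
    exact single_of_chi _ _ _ (lam_prime _) (hmain 0 o' k n hk) hn
  have hrel : ∀ (o o' k l : I) (n : ℤ), L (Finsupp.single o 1) k ≠ 0 →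
      β (Finsupp.single o' 1) = Finsupp.single l 1 →
      rel (k - dg (n * u) - l) (o - o' - dg n) := by
    intro o o' k l n hk hl
    have h1 := hmain o o' k n hk
    rw [hl, chi_single, zpow_one] at h1
    exact (lam_eq_iff _ _).1 (by exact_mod_cast h1)
  have hkl : ∀ (o o' k l : I), o.1 = 0 → o'.1 = 0 → L (Finsupp.single o 1) k ≠ 0 →
      β (Finsupp.single o' 1) = Finsupp.single l 1 → k - l = o - o' := by
    intro o o' k l ho ho' hk hl
    have h1 := hrel o o' k l 0 hk hl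
    rw [zero_mul, dg_zero, sub_zero, sub_zero] at h1
    exact eq_of_rel_zero h1 (by rw [Prod.fst_sub, ho, ho', sub_zero])
  obtain ⟨l0, hl0⟩ := hsingle 0
  have hu1 : u = 1 := by
    obtain ⟨k, hk⟩ := hk0 0
    have h1 := hkl 0 0 k l0 rfl rfl hk hl0
    have h2 := hrel 0 0 k l0 1 hk hl0
    have h3 : k - dg (1 * u) - l0 = -dg u := by
      rw [one_mul, sub_right_comm, h1]; simp
    rw [h3] at h2
    obtain ⟨h4, m, n, h5⟩ := h2
    have h6 : (u : ZMod 2) = 1 := by simpa [dg] using h4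
    have h7 : Odd u := ZMod.intCast_eq_one_iff_odd.1 h6
    have h8 : 2 ^ m * (-u) = 2 ^ n * (-1 : ℤ) := by simpa [dg] using h5
    have := eq_of_odd h8 h7.neg (by decide)
    omega
  have hwo : ∀ o : I, o.1 = 0 → ∃ c : ℚ, c ≠ 0 ∧
      L (Finsupp.single o 1) = Finsupp.single (l0 + o) c := by
    intro o ho
    have h1 : ∀ k, L (Finsupp.single o 1) k ≠ 0 → k = l0 + o := by
      intro k hk
      have := hkl o 0 k l0 ho rfl hk hl0
      rw [sub_zero] at this
      rw [← this]; abel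
    obtain ⟨k, hk⟩ := hk0 o
    refine ⟨L (Finsupp.single o 1) (l0 + o), h1 k hk ▸ hk, ?_⟩
    rw [Finsupp.eq_single_iff]
    refine ⟨?_, rfl⟩
    intro k' hk'
    rw [Finset.mem_singleton]
    exact h1 k' (Finsupp.mem_support_iff.1 hk')
  have hβo : ∀ o : I, o.1 = 0 → β (Finsupp.single o 1) = Finsupp.single (l0 + o) 1 := by
    intro o ho
    obtain ⟨l, hl⟩ := hsingle o
    obtain ⟨k, hk⟩ := hk0 0
    have h1 := hkl 0 o k l rfl ho hk hl
    have h2 := hkl 0 0 k l0 rfl rfl hk hl0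
    have h3 : l = l0 + o := by
      have e : l = k - (k - l) := by abel
      have e' : k = l0 + (k - l0) := by abel
      rw [e, h1, e', h2]; abel
    rw [hl, h3]
  have hLsurj : Function.Surjective L := by
    intro v
    induction v using Finsupp.induction_linear with
    | zero => exact ⟨0, map_zero _⟩
    | add f g hf hg =>
      obtain ⟨f', rfl⟩ := hf
      obtain ⟨g', rfl⟩ := hg
      exact ⟨f' + g', map_add _ _ _⟩
    | single i r =>
      obtain ⟨o, n, ho, rfl⟩ := decomp i l0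
      obtain ⟨c, hc, hc'⟩ := hwo o ho
      have h1 := hconj (tG n) (tG_mem n) (Finsupp.single o 1)
      rw [htq, hu1, mul_one, hc', act_single] at h1
      set d := chi (ψ (tG n)).b (l0 + o + dg n) * c with hd
      have hd0 : d ≠ 0 := mul_ne_zero (chi_ne_zero _ _) hc
      refine ⟨(r / d) • act (tG n).b (tG n).q (Finsupp.single o 1), ?_⟩
      rw [map_smul, ← h1, Finsupp.smul_single, smul_eq_mul, div_mul_cancel₀ _ hd0]
  have hβsurj : Function.Surjective β := by
    intro b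
    induction b using Finsupp.induction_linear with
    | zero => exact ⟨0, map_zero _⟩
    | add f g hf hg =>
      obtain ⟨f', rfl⟩ := hf
      obtain ⟨g', rfl⟩ := hg
      exact ⟨f' + g', map_add _ _ _⟩
    | single i z =>
      obtain ⟨o, n, ho, rfl⟩ := decomp i l0
      refine ⟨z • shift (dg n) (Finsupp.single o 1), ?_⟩
      rw [map_zsmul, hβshift, hu1, mul_one, hβo o ho, shift_single, Finsupp.smul_single,
        smul_eq_mul, mul_one]
  intro g hg
  obtain ⟨b, hb⟩ := hβsurj (g.b - (ψ (tG g.q.1)).b)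
  obtain ⟨v, hv⟩ := hLsurj (g.v - (ψ (bG b) * ψ (tG g.q.1)).v)
  refine ⟨vG v * (bG b * tG g.q.1), T.mul_mem (vG_mem _) (T.mul_mem (bG_mem _) (tG_mem _)), ?_⟩
  rw [hmul _ (vG_mem _) _ (T.mul_mem (bG_mem _) (tG_mem _)), hmul _ (bG_mem _) _ (tG_mem _), hL,
    hv]
  apply G.ext
  · rw [mul_v]
    simp [vG]
  · rw [mul_b, mul_b, hbq, hβ, hb]
    simp [vG]
  · rw [mul_q, mul_q, hbq, htq, hu1, mul_one, ← eq_dg hg]
    simp [vG]

end Pool.Agent.H830Z.CoHopf
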