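import Pool.Agent.H830Z.CoHopfB

/-!
The subgroup `T` is finitely generated.
-/

set_option autoImplicit false

namespace Pool.Agent.H830Z.CoHopf

noncomputable def gens : Set G :=
  {tG 1, bG (Finsupp.single (0, 0) 1), bG (Finsupp.single (0, 1) 1),
    vG (Finsupp.single (0, 0) 1), vG (Finsupp.single (0, 1) 1)}

theorem gens_finite : gens.Finite := by
  unfold gens
  exact Set.toFinite _

theorem tG_neg (n : ℤ) : tG (-n) = (tG n)⁻¹ := by
  rw [eq_inv_iff_mul_eq_one, ← tG_add, neg_add_cancel, tG_zero]

theorem bG_neg (b : I →₀ ℤ) : bG (-b) = (bG b)⁻¹ := by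
  rw [eq_inv_iff_mul_eq_one, ← bG_add, neg_add_cancel, bG_zero]

theorem vG_neg (v : I →₀ ℚ) : vG (-v) = (vG v)⁻¹ := by
  rw [eq_inv_iff_mul_eq_one, ← vG_add, neg_add_cancel, vG_zero]

theorem zero_cases (o : I) (ho : o.1 = 0) : o = (0, 0) ∨ o = (0, 1) := by
  obtain ⟨a, e⟩ := o
  simp only at ho
  subst ho
  fin_cases e
  · left; rfl
  · right; rfl

theorem closure_gens : Subgroup.closure gens = T := by
  apply le_antisymm
  · rw [Subgroup.closure_le]
    intro g hg
    simp only [gens, Set.mem_insert_iff, Set.mem_singleton_iff] at hg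
    rcases hg with rfl | rfl | rfl | rfl | rfl
    · exact tG_mem _
    · exact bG_mem _
    · exact bG_mem _
    · exact vG_mem _
    · exact vG_mem _
  set C := Subgroup.closure gens with hC
  have ht : ∀ n, tG n ∈ C := by
    have h1 : tG 1 ∈ C := Subgroup.subset_closure (by simp [gens])
    intro n
    induction n using Int.induction_on with
    | zero => rw [tG_zero]; exact C.one_mem
    | succ n ih => rw [tG_add]; exact C.mul_mem ih h1
    | pred n ih =>
      rw [sub_eq_add_neg, tG_add, tG_neg 1]; exact C.mul_mem ih (C.inv_mem h1)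
  let B : AddSubgroup (I →₀ ℤ) :=
    { carrier := {b | bG b ∈ C}
      add_mem' := by
        intro a b ha hb
        show bG (a + b) ∈ C
        rw [bG_add]; exact C.mul_mem ha hb
      zero_mem' := C.one_mem
      neg_mem' := by
        intro a ha
        show bG (-a) ∈ C
        rw [bG_neg]; exact C.inv_mem ha }
  have hb1 : ∀ j, bG (Finsupp.single j 1) ∈ C := by
    intro j
    obtain ⟨o, n, ho, rfl⟩ := decomp j 0
    have h1 : bG (Finsupp.single o 1) ∈ C := by
      rcases zero_cases o ho with rfl | rfl <;> exact Subgroup.subset_closure (by simp [gens])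
    have h2 := tG_mul_bG n (Finsupp.single o 1)
    rw [shift_single, ← mul_inv_eq_iff_eq_mul] at h2
    rw [zero_add, ← h2]
    exact C.mul_mem (C.mul_mem (ht n) h1) (C.inv_mem (ht n))
  have hb : ∀ b, bG b ∈ C := by
    intro b
    show b ∈ B
    induction b using Finsupp.induction_linear with
    | zero => exact B.zero_mem
    | add f g hf hg => exact B.add_mem hf hg
    | single j z =>
      have : Finsupp.single j z = z • Finsupp.single j (1 : ℤ) := by simp
      rw [this]
      exact B.zsmul_mem (hb1 j) z
  let V : AddSubgroup (I →₀ ℚ) :=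
    { carrier := {b | vG b ∈ C}
      add_mem' := by
        intro a b ha hb
        show vG (a + b) ∈ C
        rw [vG_add]; exact C.mul_mem ha hb
      zero_mem' := C.one_mem
      neg_mem' := by
        intro a ha
        show vG (-a) ∈ C
        rw [vG_neg]; exact C.inv_mem ha }
  have hact : ∀ g ∈ C, ∀ v ∈ V, act g.b g.q v ∈ V := by
    intro g hg v hv
    have h2 := mul_vG g v
    rw [← mul_inv_eq_iff_eq_mul] at h2
    show vG _ ∈ C
    rw [← h2]
    exact C.mul_mem (C.mul_mem hg hv) (C.inv_mem hg)
  have hv1 : ∀ i, Finsupp.single i (1 : ℚ) ∈ V := by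
    intro i
    obtain ⟨o, n, ho, rfl⟩ := decomp i 0
    have h1 : Finsupp.single o (1 : ℚ) ∈ V := by
      show vG _ ∈ C
      rcases zero_cases o ho with rfl | rfl <;> exact Subgroup.subset_closure (by simp [gens])
    have h2 := hact _ (ht n) _ h1
    rw [act_single] at h2
    simpa [tG] using h2
  have hvp : ∀ (i : I) (p : ℕ), p.Prime → ∀ r : ℚ, Finsupp.single i r ∈ V →
      Finsupp.single i ((p : ℚ)⁻¹ * r) ∈ V := by
    intro i p hp r hr
    obtain ⟨k, rfl⟩ := lam_surj hp
    have h2 := hact _ (hb (Finsupp.single (i - k) (-1))) _ hr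
    rw [act_single] at h2
    simp only [bG, add_zero, chi_single, sub_sub_cancel, zpow_neg, zpow_one] at h2
    exact h2
  have hvn : ∀ (i : I) (n : ℕ), Finsupp.single i ((n : ℚ)⁻¹) ∈ V := by
    intro i n
    induction n using induction_on_primes with
    | zero => simp
    | one => simpa using hv1 i
    | prime_mul p a hp ih =>
      have := hvp i p hp _ ih
      rw [Nat.cast_mul, mul_inv]
      exact this
  have hv : ∀ v, vG v ∈ C := by
    intro v
    show v ∈ V
    induction v using Finsupp.induction_linear with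
    | zero => exact V.zero_mem
    | add f g hf hg => exact V.add_mem hf hg
    | single j r =>
      have : Finsupp.single j r = r.num • Finsupp.single j ((r.den : ℚ)⁻¹) := by
        rw [Finsupp.smul_single, zsmul_eq_mul, ← div_eq_mul_inv, Rat.num_div_den]
      rw [this]
      exact V.zsmul_mem (hvn j r.den) _
  intro g hg
  have : g = vG g.v * (bG g.b * tG g.q.1) := by
    apply G.ext
    · simp [vG, bG, tG]
    · simp [vG, bG, tG]
    · simp only [vG, bG, tG, mul_q, zero_add]
      exact eq_dg hg
  rw [this]
  exact C.mul_mem (hv _) (C.mul_mem (hb _) (ht _))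

/-- `T` as a subsemigroup -/
def TS : Subsemigroup G := ⟨T, fun ha hb => T.mul_mem ha hb⟩

theorem mem_TS (g : G) : g ∈ TS ↔ g ∈ T := Iff.rfl

theorem TS_fg : ∃ A : Finset G, Subsemigroup.closure (A : Set G) = TS := by
  have hfin : (insert 1 (gens ∪ gens⁻¹)).Finite := (gens_finite.union gens_finite.inv).insert 1
  refine ⟨hfin.toFinset, ?_⟩
  rw [Set.Finite.coe_toFinset]
  apply le_antisymm
  · rw [Subsemigroup.closure_le]
    intro g hg
    show g ∈ T
    rw [← closure_gens]
    rcases hg with rfl | hg | hg
    · exact Subgroup.one_mem _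
    · exact Subgroup.subset_closure hg
    · exact (Subgroup.inv_mem_iff _).1 (Subgroup.subset_closure hg)
  · intro g hg
    rw [mem_TS, ← closure_gens] at hg
    induction hg using Subgroup.closure_induction'' with
    | mem x hx => exact Subsemigroup.subset_closure (Or.inr (Or.inl hx))
    | inv_mem x hx =>
      exact Subsemigroup.subset_closure (Or.inr (Or.inr (by simpa using hx)))
    | one => exact Subsemigroup.subset_closure (Or.inl rfl)
    | mul x y _ _ hx hy => exact Subsemigroup.mul_mem _ hx hy

theorem index_two {u h : G} (hu : u ∉ T) (hh : h ∉ T) : u⁻¹ * h ∈ T ∧ h * u⁻¹ ∈ T := by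
  rw [mem_T] at hu hh
  have key : ∀ a b c d : ZMod 2, a ≠ b → c ≠ d → -a + c = -b + d := by decide
  have h1 := key _ _ _ _ hu hh
  constructor
  · rw [mem_T]
    simpa using h1
  · rw [mem_T]
    simp only [mul_q, inv_q, Prod.snd_add, Prod.snd_neg, Prod.fst_add, Prod.fst_neg, Int.cast_add,
      Int.cast_neg]
    rw [add_comm, h1, add_comm]

end Pool.Agent.H830Z.CoHopf
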