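import Mathlib

/-!
Reduction of the semigroup statement to a group with a co-hopfian subgroup of index two.
-/

set_option autoImplicit false

namespace Pool.Agent.H830Z.CoHopf

theorem reduction {G : Type} [Group G] (T : Subgroup G) (TS : Subsemigroup G)
    (hTS : ∀ g, g ∈ TS ↔ g ∈ T) (a : G) (ha : a ∉ T)
    (index_two : ∀ {u h : G}, u ∉ T → h ∉ T → u⁻¹ * h ∈ T ∧ h * u⁻¹ ∈ T)
    (TS_fg : ∃ A : Finset G, Subsemigroup.closure (A : Set G) = TS)
    (cohopf : ∀ (ψ : G → G), (∀ g ∈ T, ψ g ∈ T) →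
      (∀ g ∈ T, ∀ h ∈ T, ψ (g * h) = ψ g * ψ h) → Set.InjOn ψ T → ∀ g ∈ T, ∃ h ∈ T, ψ h = g)
    (phi : G →ₙ* G) (phi_injective : Function.Injective phi)
    (phi_not_surjective : ¬ Function.Surjective phi) :
    ¬ (∀ (S : Type) [Semigroup S] (T : Subsemigroup S) (Hrel : S → S → Prop),
      (∀ u v : S, Hrel u v ↔
        ((v = u ∨ ∃ t ∈ T, v = u * t) ∧ (u = v ∨ ∃ t ∈ T, u = v * t) ∧
         (v = u ∨ ∃ t ∈ T, v = t * u) ∧ (u = v ∨ ∃ t ∈ T, u = t * v))) →
      (∃ A : Finset S, Subsemigroup.closure (A : Set S) = T) →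
      (∃ F : Finset S, ∀ u : S, u ∉ T → ∃ f ∈ F, Hrel u f) →
      (∀ f : T →ₙ* T, Function.Injective f → Function.Surjective f) →
      (∀ u : S, u ∉ T →
        ∀ G : Set ({h : S // Hrel u h} → {h : S // Hrel u h}),
          (∀ g : {h : S // Hrel u h} → {h : S // Hrel u h}, g ∈ G ↔
            (g = id ∨ ∃ t ∈ T,
              (∀ h : {h : S // Hrel u h}, ∃ h' : {h : S // Hrel u h}, h'.1 * t = h.1) ∧
              ∀ h : {h : S // Hrel u h}, (g h).1 = h.1 * t)) →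
          ∀ φ : ({h : S // Hrel u h} → {h : S // Hrel u h}) →
                ({h : S // Hrel u h} → {h : S // Hrel u h}),
            (∀ g ∈ G, φ g ∈ G) →
            (∀ g ∈ G, ∀ g' ∈ G, φ (g ∘ g') = φ g ∘ φ g') →
            Set.InjOn φ G →
            ∀ g ∈ G, ∃ g' ∈ G, φ g' = g) →
      ∀ f : S →ₙ* S, Function.Injective f → Function.Surjective f) := by
  intro hall
  let Hrel : G → G → Prop := fun u v =>
    ((v = u ∨ ∃ t ∈ TS, v = u * t) ∧ (u = v ∨ ∃ t ∈ TS, u = v * t) ∧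
      (v = u ∨ ∃ t ∈ TS, v = t * u) ∧ (u = v ∨ ∃ t ∈ TS, u = t * v))
  have hH : ∀ u : G, u ∉ T → ∀ h : G, Hrel u h ↔ h ∉ T := by
    intro u hu h
    constructor
    · rintro ⟨-, h2 | ⟨t, ht, h2⟩, -⟩ hh
      · exact hu (h2 ▸ hh)
      · exact hu (h2 ▸ T.mul_mem hh ((hTS _).1 ht))
    · intro hh
      refine ⟨Or.inr ⟨u⁻¹ * h, (hTS _).2 (index_two hu hh).1, by group⟩,
        Or.inr ⟨h⁻¹ * u, (hTS _).2 (index_two hh hu).1, by group⟩,
        Or.inr ⟨h * u⁻¹, (hTS _).2 (index_two hu hh).2, by group⟩,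
        Or.inr ⟨u * h⁻¹, (hTS _).2 (index_two hh hu).2, by group⟩⟩
  refine phi_not_surjective (hall G TS Hrel (fun _ _ => Iff.rfl) TS_fg ?_ ?_ ?_ phi phi_injective)
  · refine ⟨{a}, fun u hu => ⟨_, Finset.mem_singleton_self _, ?_⟩⟩
    exact (hH u (fun h => hu ((hTS _).2 h)) _).2 ha
  · intro f hf g
    have hex : ∀ x : G, ∃ y : G, ∀ hx : x ∈ T, y = (f ⟨x, (hTS x).2 hx⟩).1 := by
      intro x
      by_cases hx : x ∈ T
      · exact ⟨(f ⟨x, (hTS x).2 hx⟩).1, fun _ => rfl⟩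
      · exact ⟨1, fun h => absurd h hx⟩
    choose F hF using hex
    obtain ⟨h, hh, e⟩ := cohopf F
      (by
        intro x hx
        rw [hF x hx]
        exact (hTS _).1 (f _).2)
      (by
        intro x hx y hy
        rw [hF x hx, hF y hy, hF _ (T.mul_mem hx hy)]
        exact congrArg Subtype.val (map_mul f ⟨x, (hTS x).2 hx⟩ ⟨y, (hTS y).2 hy⟩))
      (by
        intro x hx y hy hxy
        rw [hF x hx, hF y hy] at hxy
        exact congrArg Subtype.val (hf (Subtype.ext hxy)))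
      g.1 ((hTS _).1 g.2)
    refine ⟨⟨h, (hTS _).2 hh⟩, Subtype.ext ?_⟩
    rw [← hF h hh, e]
  · classical
    intro u hu Gs hGs φ hφ hφmul hφinj
    have hu' : u ∉ T := fun h => hu ((hTS _).2 h)
    have hmulmem : ∀ t ∈ T, ∀ h : {h : G // Hrel u h}, Hrel u (h.1 * t) := by
      intro t ht h
      rw [hH u hu']
      intro h1
      have h2 := T.mul_mem h1 (T.inv_mem ht)
      rw [mul_inv_cancel_right] at h2
      exact (hH u hu' _).1 h.2 h2
    let ρ : G → {h : G // Hrel u h} → {h : G // Hrel u h} := fun t h =>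
      if ht : t ∈ T then ⟨h.1 * t, hmulmem t ht h⟩ else h
    have hρ : ∀ t ∈ T, ∀ h, (ρ t h).1 = h.1 * t := by
      intro t ht h
      simp only [ρ, dif_pos ht]
    have hρmem : ∀ t ∈ T, ρ t ∈ Gs := by
      intro t ht
      rw [hGs]
      refine Or.inr ⟨t, (hTS _).2 ht, fun h => ⟨⟨h.1 * t⁻¹, hmulmem _ (T.inv_mem ht) h⟩, by simp⟩, hρ t ht⟩
    have hρsurj : ∀ g ∈ Gs, ∃ t ∈ T, ρ t = g := by
      intro g hg
      rcases (hGs g).1 hg with rfl | ⟨t, ht, -, h2⟩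
      · refine ⟨1, T.one_mem, funext fun h => Subtype.ext ?_⟩
        rw [hρ 1 T.one_mem]; simp
      · refine ⟨t, (hTS _).1 ht, funext fun h => Subtype.ext ?_⟩
        rw [hρ t ((hTS _).1 ht), h2]
    have hρinj : ∀ t ∈ T, ∀ t' ∈ T, ρ t = ρ t' → t = t' := by
      intro t ht t' ht' e
      have h1 := hρ t ht ⟨u, (hH u hu' u).2 hu'⟩
      rw [e, hρ t' ht'] at h1
      exact (mul_left_cancel h1).symm
    have hρmul : ∀ t ∈ T, ∀ t' ∈ T, ρ (t * t') = ρ t' ∘ ρ t := by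
      intro t ht t' ht'
      refine funext fun h => Subtype.ext ?_
      rw [hρ _ (T.mul_mem ht ht'), Function.comp_apply, hρ t' ht', hρ t ht, mul_assoc]
    have hex : ∀ t : G, ∃ s : G, t ∈ T → s ∈ T ∧ ρ s = φ (ρ t) := by
      intro t
      by_cases ht : t ∈ T
      · obtain ⟨s, hs, e⟩ := hρsurj _ (hφ _ (hρmem t ht))
        exact ⟨s, fun _ => ⟨hs, e⟩⟩
      · exact ⟨1, fun h => absurd h ht⟩
    choose f hf using hex
    have hsurj := cohopf f (fun t ht => (hf t ht).1)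
      (by
        intro t ht t' ht'
        apply hρinj _ (hf _ (T.mul_mem ht ht')).1 _ (T.mul_mem (hf t ht).1 (hf t' ht').1)
        rw [(hf _ (T.mul_mem ht ht')).2, hρmul _ ht _ ht', hφmul _ (hρmem _ ht') _ (hρmem _ ht),
          hρmul _ (hf t ht).1 _ (hf t' ht').1, (hf t ht).2, (hf t' ht').2])
      (by
        intro t ht t' ht' e
        apply hρinj _ ht _ ht'
        apply hφinj (hρmem _ ht) (hρmem _ ht')
        rw [← (hf t ht).2, ← (hf t' ht').2, e])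
    intro g hg
    obtain ⟨s, hs, rfl⟩ := hρsurj g hg
    obtain ⟨t, ht, rfl⟩ := hsurj s hs
    exact ⟨ρ t, hρmem t ht, ((hf t ht).2).symm⟩

end Pool.Agent.H830Z.CoHopf
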