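import Mathlib

/-!
Reduction of the semigroup statement to a group with a co-hopfian subgroup of index two.
-/

set_option autoImplicit false

namespace Pool.Agent.H830Z.CoHopf

theorem reduction2 {G : Type} [Group G] (T : Subgroup G) (TS : Subsemigroup G)
    (hTS : ∀ g, g ∈ TS ↔ g ∈ T) (a : G) (ha : a ∉ T)
    (index_two : ∀ {u h : G}, u ∉ T → h ∉ T → u⁻¹ * h ∈ T ∧ h * u⁻¹ ∈ T)
    (TS_fg : ∃ A : Finset G, Subsemigroup.closure (A : Set G) = TS)
    (cohopf : ∀ (ψ : G → G), (∀ g ∈ T, ψ g ∈ T) →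
      (∀ g ∈ T, ∀ h ∈ T, ψ (g * h) = ψ g * ψ h) → Set.InjOn ψ T → ∀ g ∈ T, ∃ h ∈ T, ψ h = g)
    (phi : G →ₙ* G) (phi_injective : Function.Injective phi)
    (phi_not_surjective : ¬ Function.Surjective phi) :
    ¬ (∀ (S : Type) [Semigroup S] (T : Subsemigroup S),
      (∃ G : Finset S, Subsemigroup.closure (G : Set S) = T) →
      (∃ F : Finset S, ∀ u : S, u ∉ T → ∃ v ∈ F, v ∉ T ∧
        ((u = v ∨ ∃ t ∈ T, u = v * t) ∧ (v = u ∨ ∃ t ∈ T, v = u * t)) ∧
        ((u = v ∨ ∃ t ∈ T, u = t * v) ∧ (v = u ∨ ∃ t ∈ T, v = t * u))) →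
      (∀ f : T →ₙ* T, Function.Injective f → Function.Surjective f) →
      ∀ f : S →ₙ* S, Function.Injective f → Function.Surjective f) := by
  intro hall
  refine phi_not_surjective (hall G TS TS_fg ?_ ?_ phi phi_injective)
  · refine ⟨{a}, fun u hu => ⟨a, Finset.mem_singleton_self _, fun h => ha ((hTS _).1 h), ?_⟩⟩
    have hu' : u ∉ T := fun h => hu ((hTS _).2 h)
    exact ⟨⟨Or.inr ⟨a⁻¹ * u, (hTS _).2 (index_two ha hu').1, by group⟩,
      Or.inr ⟨u⁻¹ * a, (hTS _).2 (index_two hu' ha).1, by group⟩⟩,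
      Or.inr ⟨u * a⁻¹, (hTS _).2 (index_two ha hu').2, by group⟩,
      Or.inr ⟨a * u⁻¹, (hTS _).2 (index_two hu' ha).2, by group⟩⟩
  · intro f hf g
    have hex : ∀ x : G, ∃ y : G, ∀ hx : x ∈ T, y = (f ⟨x, (hTS x).2 hx⟩).1 := by
      intro x
      by_cases hx : x ∈ T
      · exact ⟨(f ⟨x, (hTS x).2 hx⟩).1, fun _ => rfl⟩
      · exact ⟨1, fun h => absurd h hx⟩
    choose F hF using hex
    obtain ⟨h, hh, e⟩ := cohopf F
      (by
        intro x hx
        rw [hF x hx]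
        exact (hTS _).1 (f _).2)
      (by
        intro x hx y hy
        rw [hF x hx, hF y hy, hF _ (T.mul_mem hx hy)]
        exact congrArg Subtype.val (map_mul f ⟨x, (hTS x).2 hx⟩ ⟨y, (hTS y).2 hy⟩))
      (by
        intro x hx y hy hxy
        rw [hF x hx, hF y hy] at hxy
        exact congrArg Subtype.val (hf (Subtype.ext hxy)))
      g.1 ((hTS _).1 g.2)
    refine ⟨⟨h, (hTS _).2 hh⟩, Subtype.ext ?_⟩
    rw [← hF h hh, e]

end Pool.Agent.H830Z.CoHopf
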