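import Pool.Agent.H830Z.CoHopfC

/-!
Consequences for groups.
-/

set_option autoImplicit false

namespace Pool.Agent.H830Z.CoHopf

theorem cohopf_of {G : Type} [Group G] (T : Subgroup G)
    (cohopf : ∀ (ψ : G → G), (∀ g ∈ T, ψ g ∈ T) →
      (∀ g ∈ T, ∀ h ∈ T, ψ (g * h) = ψ g * ψ h) → Set.InjOn ψ T → ∀ g ∈ T, ∃ h ∈ T, ψ h = g) :
    ∀ f : T →* T, Function.Injective f → Function.Surjective f := by
  intro f hf g
  have hex : ∀ x : G, ∃ y : G, ∀ hx : x ∈ T, y = (f ⟨x, hx⟩).1 := by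
    intro x
    by_cases hx : x ∈ T
    · exact ⟨(f ⟨x, hx⟩).1, fun _ => rfl⟩
    · exact ⟨1, fun h => absurd h hx⟩
  choose F hF using hex
  obtain ⟨h, hh, e⟩ := cohopf F
    (by
      intro x hx
      rw [hF x hx]
      exact (f _).2)
    (by
      intro x hx y hy
      rw [hF x hx, hF y hy, hF _ (T.mul_mem hx hy)]
      exact congrArg Subtype.val (map_mul f ⟨x, hx⟩ ⟨y, hy⟩))
    (by
      intro x hx y hy hxy
      rw [hF x hx, hF y hy] at hxy
      exact congrArg Subtype.val (hf (Subtype.ext hxy)))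
    g.1 g.2
  refine ⟨⟨h, hh⟩, Subtype.ext ?_⟩
  rw [← hF h hh, e]

theorem T_cohopf : ∀ f : T →* T, Function.Injective f → Function.Surjective f :=
  cohopf_of T cohopf

theorem T_index : T.index = 2 := by
  rw [Subgroup.index_eq_two_iff]
  refine ⟨⟨0, 0, (0, 1)⟩, fun b => ?_⟩
  rw [mem_T, mem_T]
  simp only [mul_q, Prod.snd_add, Prod.fst_add, add_zero]
  have key : ∀ x y : ZMod 2, Xor (x + 1 = y) (x = y) := by decide
  exact key _ _

instance : T.FiniteIndex := ⟨by rw [T_index]; decide⟩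

theorem T_fg : Group.FG T := by
  rw [Group.fg_iff_subgroup_fg, Subgroup.fg_iff]
  exact ⟨gens, closure_gens, gens_finite⟩

theorem G_fg : Group.FG G := by
  rw [Group.fg_iff]
  refine ⟨insert ⟨0, 0, (0, 1)⟩ gens, ?_, gens_finite.insert _⟩
  rw [eq_top_iff]
  intro g _
  have ha : (⟨0, 0, (0, 1)⟩ : G) ∉ T := by
    rw [mem_T]; simp
  have hT : T ≤ Subgroup.closure (insert (⟨0, 0, (0, 1)⟩ : G) gens) := by
    rw [← closure_gens]
    exact Subgroup.closure_mono (Set.subset_insert _ _)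
  by_cases hg : g ∈ T
  · exact hT hg
  · have h1 := hT (index_two ha hg).1
    have h2 : (⟨0, 0, (0, 1)⟩ : G) ∈ Subgroup.closure (insert (⟨0, 0, (0, 1)⟩ : G) gens) :=
      Subgroup.subset_closure (Set.mem_insert _ _)
    have := Subgroup.mul_mem _ h2 h1
    rwa [mul_inv_cancel_left] at this

noncomputable def phiM : G →* G := MonoidHom.mk' phi (map_mul phi)

theorem G_not_cohopf : ¬ ∀ f : G →* G, Function.Injective f → Function.Surjective f :=
  fun h => phi_not_surjective (h phiM phi_injective)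

/-- the subgroup of index two in `T` -/
def N : Subgroup T where
  carrier := {g | g.1.q.2 = 0}
  mul_mem' := by
    intro a b ha hb
    show (a.1 * b.1).q.2 = 0
    have ha' : a.1.q.2 = 0 := ha
    have hb' : b.1.q.2 = 0 := hb
    rw [mul_q, Prod.snd_add, ha', hb', add_zero]
  one_mem' := rfl
  inv_mem' := by
    intro a ha
    show (a.1⁻¹).q.2 = 0
    have ha' : a.1.q.2 = 0 := ha
    rw [inv_q, Prod.snd_neg, ha', neg_zero]

theorem mem_N (g : T) : g ∈ N ↔ g.1.q.2 = 0 := Iff.rfl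

theorem N_index : N.index = 2 := by
  rw [Subgroup.index_eq_two_iff]
  refine ⟨⟨tG 1, tG_mem 1⟩, fun b => ?_⟩
  rw [mem_N, mem_N]
  show Xor ((b.1 * tG 1).q.2 = 0) _
  simp only [mul_q, Prod.snd_add, tG, dg, Int.cast_one]
  have key : ∀ x : ZMod 2, Xor (x + 1 = 0) (x = 0) := by decide
  exact key _

theorem phi_mem_T {g : G} (hg : g.q.2 = 0) : phiM g ∈ T := by
  show g.q.2 = ((2 * g.q.1 : ℤ) : ZMod 2)
  rw [hg]
  push_cast
  have : (2 : ZMod 2) = 0 := rfl
  rw [this, zero_mul]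

noncomputable def phiN : N →* N := MonoidHom.mk'
  (fun g => ⟨⟨phiM g.1.1, phi_mem_T g.2⟩, g.2⟩) (by
    intro a b
    apply Subtype.ext
    apply Subtype.ext
    exact map_mul phiM a.1.1 b.1.1)

theorem N_not_cohopf : ¬ ∀ f : N →* N, Function.Injective f → Function.Surjective f := by
  intro h
  have hinj : Function.Injective phiN := by
    intro a b hab
    apply Subtype.ext
    apply Subtype.ext
    exact phi_injective (congrArg (fun x : N => x.1.1) hab)
  have h2 : (⟨tG 2, tG_mem 2⟩ : T) ∈ N := by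
    show ((2 : ℤ) : ZMod 2) = 0
    rfl
  obtain ⟨g, hg⟩ := h phiN hinj ⟨_, h2⟩
  have h3 : 2 * g.1.1.q.1 = 2 := congrArg (fun x : N => x.1.1.q.1) hg
  have h4 : g.1.1.q.1 = 1 := by omega
  have h5 : g.1.1.q.2 = (g.1.1.q.1 : ZMod 2) := g.1.2
  have h6 : g.1.1.q.2 = 0 := g.2
  rw [h4, h6] at h5
  exact absurd h5 (by decide)

end Pool.Agent.H830Z.CoHopf
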