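import Mathlib

/-!
A non-hopfian group `G = L ⋊ Z` with a hopfian subgroup of index two.  Here `L = Z[X]` as an
additive group, `φ` is the downward shift and the generator of `Z` acts by `1 + 2 φ`.
-/

set_option autoImplicit false

namespace Pool.Agent.H830Z.Hopf

open Polynomial

abbrev L : Type := Polynomial ℤ

noncomputable def ph : Module.End ℤ L := (divX_hom : L →+ L).toIntLinearMap

theorem ph_apply (l : L) : ph l = divX l := rfl

@[simp] theorem ph_coeff (l : L) (n : ℕ) : (ph l).coeff n = l.coeff (n + 1) := coeff_divX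

theorem ph_surj : Function.Surjective ph := by
  intro l
  refine ⟨l * X, ?_⟩
  ext n
  rw [ph_coeff, coeff_mul_X]

noncomputable def u0 : Module.End ℤ L := 1 + 2 • ph

theorem u0_apply (l : L) : u0 l = l + 2 • ph l := rfl

theorem u0_bij : Function.Bijective u0 := by
  constructor
  · rw [injective_iff_map_eq_zero]
    intro l hl
    have h1 := congrArg (fun p : L => p.coeff l.natDegree) hl
    simp only [u0_apply, coeff_add, coeff_smul, ph_coeff, coeff_natDegree_succ_eq_zero,
      smul_zero, add_zero, coeff_zero] at h1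
    exact leadingCoeff_eq_zero.1 h1
  · have key : ∀ n : ℕ, ∀ l : L, (∀ k, n ≤ k → l.coeff k = 0) → ∃ m, u0 m = l := by
      intro n
      induction n with
      | zero =>
        intro l hl
        refine ⟨0, ?_⟩
        rw [map_zero]
        ext k
        rw [hl k (Nat.zero_le _), coeff_zero]
      | succ n ih =>
        intro l hl
        obtain ⟨m, hm⟩ := ih (ph l) (fun k hk => by rw [ph_coeff]; exact hl _ (by omega))
        refine ⟨l - 2 • m, ?_⟩
        rw [map_sub, map_nsmul, hm, u0_apply]
        abel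
    intro l
    exact key (l.natDegree + 1) l (fun k hk => coeff_eq_zero_of_natDegree_lt (by omega))

noncomputable def U : (Module.End ℤ L)ˣ := ((Module.End.isUnit_iff u0).2 u0_bij).unit

theorem U_val : (U : Module.End ℤ L) = u0 := rfl

/-- the action of `k` -/
noncomputable def A (k : ℤ) : Module.End ℤ L := ((U ^ k : (Module.End ℤ L)ˣ) : Module.End ℤ L)

@[simp] theorem A_zero (l : L) : A 0 l = l := by simp [A]

theorem A_add (j k : ℤ) (l : L) : A (j + k) l = A j (A k l) := by
  simp only [A, zpow_add, Units.val_mul, Module.End.mul_apply]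

theorem A_one (l : L) : A 1 l = l + 2 • ph l := by
  simp only [A, zpow_one, U_val, u0_apply]

theorem A_ph (k : ℤ) (l : L) : A k (ph l) = ph (A k l) := by
  have h1 : Commute ph (U : Module.End ℤ L) := by
    rw [U_val, u0]
    exact (Commute.one_right _).add_right ((Commute.refl ph).smul_right 2)
  have h2 := h1.units_zpow_right k
  exact (congrArg (fun f : Module.End ℤ L => f l) h2.eq).symm

theorem A_neg_one (l : L) : A (-1) l = l - 2 • ph (A (-1) l) := by
  have h1 := A_one (A (-1) l)
  rw [← A_add, add_neg_cancel, A_zero] at h1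
  rw [eq_sub_iff_add_eq, ← h1]

theorem A_mod (k : ℤ) (l : L) : ∃ w : L, A k l = l + 2 • w := by
  induction k using Int.induction_on generalizing l with
  | zero => exact ⟨0, by simp⟩
  | succ k ih =>
    obtain ⟨w, hw⟩ := ih (A 1 l)
    refine ⟨ph l + w, ?_⟩
    rw [A_add, hw, A_one, smul_add]; abel
  | pred k ih =>
    obtain ⟨w, hw⟩ := ih (A (-1) l)
    refine ⟨w - ph (A (-1) l), ?_⟩
    rw [sub_eq_add_neg, A_add, hw, smul_sub]
    nth_rewrite 1 [A_neg_one]
    abel

theorem ph_C (c : ℤ) : ph (C c) = 0 := by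
  ext n; rw [ph_coeff, coeff_C_succ, coeff_zero]

theorem A_C (k : ℤ) (c : ℤ) : A k (C c) = C c := by
  induction k using Int.induction_on with
  | zero => simp
  | succ k ih => rw [A_add, A_one, ph_C, smul_zero, add_zero, ih]
  | pred k ih =>
    have h1 : A (-1) (C c) = C c := by
      rw [A_neg_one, ← A_ph, ph_C, map_zero, smul_zero, sub_zero]
    rw [sub_eq_add_neg, A_add, h1, ih]

theorem ph_X : ph X = C 1 := by
  ext n
  rw [ph_coeff, coeff_X, coeff_C]
  split_ifs <;> omega

theorem A_X (k : ℤ) : A k X = X + C (2 * k) := by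
  induction k using Int.induction_on with
  | zero => simp
  | succ k ih =>
    rw [A_add, A_one, ph_X, map_add, map_nsmul, ih, A_C]
    simp only [nsmul_eq_mul, map_mul, map_add, map_one, eq_intCast]
    push_cast; ring
  | pred k ih =>
    have h1 : A (-1) X = X - 2 • C 1 := by
      rw [A_neg_one, ← A_ph, ph_X, A_C]
    rw [sub_eq_add_neg, A_add, h1, map_sub, map_nsmul, ih, A_C]
    simp only [nsmul_eq_mul, map_mul, map_add, map_one, eq_intCast]
    push_cast; ring

theorem eq_C_of_ph {l : L} (h : ph l = 0) : l = C (l.coeff 0) := by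
  ext n
  rcases n with _ | n
  · rw [coeff_C_zero]
  · rw [← ph_coeff, h, coeff_C_succ, coeff_zero]

theorem k_eq_zero (k : ℤ) (h : A k (A k (X ^ 2) - X ^ 2) = A k (X ^ 2) - X ^ 2) : k = 0 := by
  have h1 : ph (X ^ 2) = X := by
    ext n
    rw [ph_coeff, coeff_X_pow, coeff_X]
    split_ifs <;> omega
  have h2 : ph (A k (X ^ 2) - X ^ 2 - (2 * k) • X) = 0 := by
    rw [map_sub, map_sub, ← A_ph, h1, A_X, map_zsmul, ph_X]
    simp
  have h3 := eq_C_of_ph h2
  rw [sub_eq_iff_eq_add] at h3
  rw [h3, map_add, A_C, map_zsmul, A_X, smul_add] at h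
  have h4 : (2 * k) • C (2 * k) = (0 : L) := by
    have := add_left_cancel h
    simpa using this
  have h5 := congrArg (fun p : L => p.coeff 0) h4
  simp only [coeff_smul, coeff_C_zero, smul_eq_mul, coeff_zero] at h5
  have := mul_self_eq_zero.1 h5
  omega

@[ext] structure G where
  l : L
  k : ℤ

noncomputable instance : Mul G := ⟨fun g h => ⟨g.l + A g.k h.l, g.k + h.k⟩⟩
noncomputable instance : One G := ⟨⟨0, 0⟩⟩
noncomputable instance : Inv G := ⟨fun g => ⟨-A (-g.k) g.l, -g.k⟩⟩

@[simp] theorem mul_l (g h : G) : (g * h).l = g.l + A g.k h.l := rfl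
@[simp] theorem mul_k (g h : G) : (g * h).k = g.k + h.k := rfl
@[simp] theorem one_l : (1 : G).l = 0 := rfl
@[simp] theorem one_k : (1 : G).k = 0 := rfl
@[simp] theorem inv_l (g : G) : (g⁻¹).l = -A (-g.k) g.l := rfl
@[simp] theorem inv_k (g : G) : (g⁻¹).k = -g.k := rfl

noncomputable instance : Group G := Group.ofLeftAxioms
  (by
    intro a b c
    apply G.ext
    · simp only [mul_l, mul_k, map_add, A_add, add_assoc]
    · simp only [mul_k, add_assoc])
  (by
    intro a
    apply G.ext <;> simp)
  (by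
    intro a
    apply G.ext <;> simp)

theorem A_even (k : ℤ) (l : L) : Even ((A k l).coeff 0) ↔ Even (l.coeff 0) := by
  obtain ⟨w, hw⟩ := A_mod k l
  rw [hw, coeff_add, coeff_smul, nsmul_eq_mul, Int.even_add]
  simp

def H : Subgroup G where
  carrier := {g | Even (g.l.coeff 0)}
  mul_mem' := by
    intro a b ha hb
    show Even ((a * b).l.coeff 0)
    rw [mul_l, coeff_add]
    exact Even.add ha ((A_even _ _).2 hb)
  one_mem' := by
    show Even ((1 : G).l.coeff 0)
    simp
  inv_mem' := by
    intro a ha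
    show Even ((a⁻¹).l.coeff 0)
    rw [inv_l, coeff_neg, even_neg]
    exact (A_even _ _).2 ha

theorem mem_H (g : G) : g ∈ H ↔ Even (g.l.coeff 0) := Iff.rfl

theorem H_index : H.index = 2 := by
  rw [Subgroup.index_eq_two_iff]
  refine ⟨⟨1, 0⟩, fun b => ?_⟩
  rw [mem_H, mem_H, mul_l, coeff_add]
  have h1 : A b.k 1 = 1 := by simpa using A_C b.k 1
  rw [h1, coeff_one_zero, Int.even_add_one]
  by_cases h : Even (b.l.coeff 0)
  · exact Or.inr ⟨h, fun h' => h' h⟩
  · exact Or.inl ⟨h, h⟩

noncomputable def Phi : G →* G := MonoidHom.mk' (fun g => ⟨ph g.l, g.k⟩) (by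
  intro a b
  apply G.ext
  · simp only [mul_l, map_add, A_ph]
  · rfl)

theorem Phi_surj : Function.Surjective Phi := by
  intro g
  obtain ⟨l, hl⟩ := ph_surj g.l
  exact ⟨⟨l, g.k⟩, G.ext hl rfl⟩

theorem Phi_not_inj : ¬ Function.Injective Phi := by
  intro h
  have h1 : Phi ⟨C 1, 0⟩ = Phi 1 := by
    rw [map_one Phi]
    exact G.ext (ph_C 1) rfl
  have h2 := congrArg G.l (h h1)
  simp at h2

def lG (l : L) : G := ⟨l, 0⟩
noncomputable def tG (k : ℤ) : G := ⟨0, k⟩

theorem lG_add (l m : L) : lG (l + m) = lG l * lG m := by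
  apply G.ext <;> simp [lG]

theorem mul_lG (g : G) (l : L) : g * lG l = lG (A g.k l) * g := by
  apply G.ext <;> simp [lG, add_comm]

theorem tG_add (j k : ℤ) : tG (j + k) = tG j * tG k := by
  apply G.ext <;> simp [tG]

theorem tG_mem (k : ℤ) : tG k ∈ H := by simp [mem_H, tG]

/-- `H` is hopfian. -/
theorem hopf (f : G → G) (hmem : ∀ g ∈ H, f g ∈ H)
    (hmul : ∀ g ∈ H, ∀ h ∈ H, f (g * h) = f g * f h) (hsurj : ∀ g ∈ H, ∃ h ∈ H, f h = g) :
    ∀ g ∈ H, f g = 1 → g = 1 := by
  have hone : f 1 = 1 := by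
    have := hmul 1 H.one_mem 1 H.one_mem
    rw [mul_one] at this
    exact left_eq_mul.1 this
  have hk : ∀ l : L, Even (l.coeff 0) → (f (lG l)).k = 0 := by
    intro l hl
    have hl' : lG l ∈ H := hl
    obtain ⟨y, hy, hy'⟩ := hsurj (lG (X ^ 2)) (by simp [mem_H, lG])
    have hA : lG (A y.k l) ∈ H := (A_even _ _).2 hl
    have h1 : y * lG l = lG (A y.k l) * y := mul_lG y l
    have h2 : lG (A y.k l) * lG l = lG l * lG (A y.k l) := by
      rw [← lG_add, ← lG_add, add_comm]
    have h3 := congrArg f h1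
    have h4 := congrArg f h2
    rw [hmul _ hy _ hl', hmul _ hA _ hy, hy'] at h3
    rw [hmul _ hA _ hl', hmul _ hl' _ hA] at h4
    set a := f (lG l)
    set b := f (lG (A y.k l))
    have h5 : b.k = a.k := by
      have := congrArg G.k h3
      simp only [mul_k, lG, zero_add, add_zero] at this
      exact this.symm
    have h6 := congrArg G.l h3
    have h7 := congrArg G.l h4
    simp only [mul_l, lG, A_zero, h5] at h6 h7
    apply k_eq_zero
    have h8 : b.l = a.l - (A a.k (X ^ 2) - X ^ 2) := by
      rw [eq_sub_iff_add_eq]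
      linear_combination -h6
    rw [h8, map_sub] at h7
    linear_combination h7
  let τ : ℤ →+ ℤ := AddMonoidHom.mk' (fun n => (f (tG n)).k) (by
    intro m n
    rw [tG_add, hmul _ (tG_mem _) _ (tG_mem _), mul_k])
  set e : ℤ := τ 1 with he
  have hτ : ∀ n, (f (tG n)).k = n * e := by
    intro n
    have h1 : τ n = n * e := by
      have := map_zsmul τ n 1
      simpa using this
    exact h1
  have hdec : ∀ g : G, g = lG g.l * tG g.k := by
    intro g
    apply G.ext <;> simp [lG, tG]
  have hfk : ∀ g ∈ H, (f g).k = g.k * e := by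
    intro g hg
    have hl' : lG g.l ∈ H := hg
    conv_lhs => rw [hdec g]
    rw [hmul _ hl' _ (tG_mem _), mul_k, hk _ hg, hτ, zero_add]
  have he1 : e = 1 ∨ e = -1 := by
    obtain ⟨y, hy, hy'⟩ := hsurj (tG 1) (tG_mem 1)
    have h1 := hfk y hy
    rw [hy'] at h1
    exact Int.eq_one_or_neg_one_of_mul_eq_one' h1.symm |>.imp (fun h => h.2) (fun h => h.2)
  have he0 : e ≠ 0 := by omega
  let F : L → L := fun l => (f (lG l)).l
  have hF : ∀ l : L, Even (l.coeff 0) → f (lG l) = lG (F l) := fun l hl => G.ext rfl (hk l hl)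
  have hFeven : ∀ l : L, Even (l.coeff 0) → Even ((F l).coeff 0) := fun l hl => hmem (lG l) hl
  have hFadd : ∀ l m : L, Even (l.coeff 0) → Even (m.coeff 0) → F (l + m) = F l + F m := by
    intro l m hl hm
    have h1 := hmul (lG l) hl (lG m) hm
    rw [← lG_add, hF l hl, hF m hm, ← lG_add] at h1
    exact congrArg G.l h1
  have hF0 : F 0 = 0 := congrArg G.l hone
  have hev : ∀ (n : ℕ) (l : L), Even (l.coeff 0) → Even ((n • l).coeff 0) := by
    intro n l hl
    rw [coeff_smul, nsmul_eq_mul]
    exact hl.mul_left _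
  have hFn : ∀ (n : ℕ) (l : L), Even (l.coeff 0) → F (n • l) = n • F l := by
    intro n l hl
    induction n with
    | zero => simpa using hF0
    | succ n ih => rw [succ_nsmul, hFadd _ _ (hev n l hl) hl, ih, succ_nsmul]
  have hFneg : ∀ l : L, Even (l.coeff 0) → F (-l) = -F l := by
    intro l hl
    have h1 := hFadd l (-l) hl (by rw [coeff_neg]; exact hl.neg)
    rw [add_neg_cancel, hF0] at h1
    exact eq_neg_of_add_eq_zero_right h1.symm
  have hFz : ∀ (z : ℤ) (l : L), Even (l.coeff 0) → F (z • l) = z • F l := by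
    intro z l hl
    obtain ⟨n, rfl | rfl⟩ := Int.eq_nat_or_neg z
    · rw [natCast_zsmul, natCast_zsmul, hFn n l hl]
    · rw [neg_zsmul, neg_zsmul, natCast_zsmul, natCast_zsmul, hFneg _ (hev n l hl), hFn n l hl]
  have h2ev : ∀ l : L, Even ((2 • l).coeff 0) := by
    intro l
    rw [coeff_smul, nsmul_eq_mul]
    exact Even.mul_right (by decide) _
  have hFA : ∀ l : L, Even (l.coeff 0) → F l + F (2 • ph l) = A e (F l) := by
    intro l hl
    have hl' : lG l ∈ H := hl
    have hA : Even ((A 1 l).coeff 0) := (A_even _ _).2 hl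
    have hA' : lG (A 1 l) ∈ H := hA
    have h1 := congrArg f (mul_lG (tG 1) l)
    have h0 : (tG 1).k = 1 := rfl
    rw [h0, hmul _ (tG_mem _) _ hl', hmul _ hA' _ (tG_mem _), hF l hl, hF _ hA, mul_lG, hτ,
      one_mul] at h1
    have h2 := congrArg G.l (mul_right_cancel h1)
    have h3 : A e (F l) = F (A 1 l) := h2
    rw [h3, A_one, hFadd _ _ hl (h2ev _)]
  intro g hg hfg
  have hgk : g.k = 0 := by
    have h1 := hfk g hg
    rw [hfg, one_k] at h1
    exact (mul_eq_zero.1 h1.symm).resolve_right he0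
  have hgl : g = lG g.l := G.ext rfl hgk
  have hFg : F g.l = 0 := by
    show (f (lG g.l)).l = 0
    rw [← hgl, hfg, one_l]
  by_contra hne
  have hl0 : g.l ≠ 0 := by
    intro h
    apply hne
    rw [hgl, h]; rfl
  have hconst : ∀ n : ℕ, ∀ l : L, l ≠ 0 → (∀ k, n ≤ k → l.coeff k = 0) → Even (l.coeff 0) →
      F l = 0 → F (C 2) = 0 := by
    intro n
    induction n with
    | zero =>
      intro l hl h
      exact absurd (Polynomial.ext fun k => by rw [h k (Nat.zero_le _), coeff_zero]) hl
    | succ n ih =>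
      intro l hl h hle hFl
      by_cases hp : ph l = 0
      · obtain ⟨c, hc⟩ := hle
        have h1 : l = c • C (2 : ℤ) := by
          rw [eq_C_of_ph hp, hc, smul_C, smul_eq_mul]
          congr 1; ring
        have hc0 : c ≠ 0 := by
          rintro rfl
          exact hl (by rw [h1, zero_smul])
        rw [h1, hFz _ _ (by simp)] at hFl
        exact (smul_eq_zero.1 hFl).resolve_left hc0
      · refine ih (2 • ph l) ?_ ?_ (h2ev _) ?_
        · exact smul_ne_zero two_ne_zero hp
        · intro k hk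
          rw [coeff_smul, ph_coeff, h _ (by omega), smul_zero]
        · have h1 := hFA l hle
          rwa [hFl, zero_add, map_zero] at h1
  have hC2 : F (C 2) = 0 := hconst (g.l.natDegree + 1) g.l hl0
    (fun k hk => coeff_eq_zero_of_natDegree_lt (by omega)) hg hFg
  have hAe : ∀ v : L, ∃ w : L, A e v = v + 2 • (ph v + 2 • w) := by
    intro v
    rcases he1 with h | h
    · exact ⟨0, by rw [h, A_one]; simp⟩
    · obtain ⟨w, hw⟩ := A_mod (-1) v
      refine ⟨-ph v - ph w, ?_⟩
      rw [h, A_neg_one, hw, map_add, map_nsmul]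
      simp only [smul_add, smul_sub, smul_neg, two_nsmul]
      abel
  have hXev : ∀ n : ℕ, Even ((X ^ (n + 1) : L).coeff 0) := by
    intro n; simp
  have hphX : ∀ n : ℕ, ph (X ^ (n + 1)) = X ^ n := by
    intro n
    ext k
    rw [ph_coeff, coeff_X_pow, coeff_X_pow]
    simp
  have hcoef : ∀ k n : ℕ, Even ((F (X ^ (n + 1))).coeff k) := by
    intro k
    induction k with
    | zero => intro n; exact hFeven _ (hXev n)
    | succ k ih =>
      intro n
      obtain ⟨w, hw⟩ := hAe (F (X ^ (n + 1)))
      have h1 := hFA _ (hXev n)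
      rw [hw, hphX] at h1
      have h2 := add_left_cancel h1
      rcases n with _ | n
      · have h3 : (2 • X ^ 0 : L) = C 2 := by simp
        rw [h3, hC2] at h2
        have h4 := congrArg (fun p : L => p.coeff k) h2
        simp only [coeff_zero, two_nsmul, coeff_add, ph_coeff] at h4
        exact ⟨-w.coeff k, by omega⟩
      · rw [hFn 2 _ (hXev n)] at h2
        have h4 := congrArg (fun p : L => p.coeff k) h2
        simp only [two_nsmul, coeff_add, ph_coeff] at h4
        obtain ⟨c, hc⟩ := ih n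
        exact ⟨c - w.coeff k, by omega⟩
  have hall : ∀ m : L, Even ((F (m * X)).coeff 1) := by
    intro m
    induction m using Polynomial.induction_on' with
    | add p q hp hq =>
      rw [add_mul, hFadd _ _ (by simp) (by simp), coeff_add]
      exact hp.add hq
    | monomial n a =>
      have h1 : (monomial n a * X : L) = a • X ^ (n + 1) := by
        rw [← C_mul_X_pow_eq_monomial, smul_eq_C_mul, pow_succ, mul_assoc]
      rw [h1, hFz _ _ (hXev n), coeff_smul, smul_eq_mul]
      exact (hcoef 1 n).mul_left _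
  obtain ⟨y, hy, hy'⟩ := hsurj (lG X) (by simp [mem_H, lG])
  have hyk : y.k = 0 := by
    have h1 := hfk y hy
    rw [hy'] at h1
    exact (mul_eq_zero.1 h1.symm).resolve_right he0
  have hyl : y = lG y.l := G.ext rfl hyk
  have hFy : F y.l = X := by
    show (f (lG y.l)).l = X
    rw [← hyl, hy']; rfl
  obtain ⟨c, hc⟩ : Even (y.l.coeff 0) := hy
  have h1 : y.l = divX y.l * X + c • C (2 : ℤ) := by
    conv_lhs => rw [← divX_mul_X_add y.l]
    rw [hc, smul_C, smul_eq_mul]
    congr 2; ring
  rw [h1, hFadd _ _ (by simp) (by rw [coeff_smul, coeff_C_zero, smul_eq_mul]; simp),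
    hFz _ _ (by simp), hC2, smul_zero, add_zero] at hFy
  have h2 := hall (divX y.l)
  rw [hFy, coeff_X_one] at h2
  exact absurd h2 (by decide)

end Pool.Agent.H830Z.Hopf
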